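import Pool.Agent.Lib.helper16.Fitting

set_option maxHeartbeats 400000

namespace Pool.Agent.H.MP_6b3431_al

open Subgroup Equiv Pool.Agent.Lib.Fitting
open scoped Classical

variable {G K : Type} [Group G] [Group K]

/-- invariant sets -/
def Iv (g : G) (p : G → Prop) : Prop := ∀ x, p (g * x * g⁻¹) ↔ p x

/-- conjugation restricted to an invariant set -/
noncomputable def res (g : G) (p : G → Prop) (h : Iv g p) : Perm G :=
  Perm.ofSubtype (Perm.subtypePerm (MulAut.conj g).toEquiv h)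

theorem res_ap (g : G) (p : G → Prop) (h : Iv g p) (x : G) :
    res g p h x = if p x then g * x * g⁻¹ else x := by
  split_ifs with e
  exacts [Perm.ofSubtype_apply_of_mem _ e, Perm.ofSubtype_apply_of_not_mem _ e]

theorem inv3 (g : G) : Iv g fun x => x ^ 3 = 1 := fun x => by simp

/-- the sign of conjugation on the solutions of `x ^ 3 = 1` -/
noncomputable def d [Finite G] : G →* ℤˣ :=
  have := Fintype.ofFinite G
  MonoidHom.mk' (fun g => Perm.sign (res g _ (inv3 g))) fun a b => by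
    rw [← map_mul]
    congr 1
    ext x
    by_cases h : x ^ 3 = 1
    · simp only [res_ap, Perm.mul_apply, h, if_true, (inv3 b x).2 h]
      group
    · simp [res_ap, h]

theorem d_def [Fintype G] (g : G) : d g = Perm.sign (res g _ (inv3 g)) := by
  show @Perm.sign _ _ (Fintype.ofFinite G) _ = _
  congr!

theorem d_res [Finite G] [Finite K] (φ : K →* G) (hφ : Function.Injective φ) [φ.range.Normal]
    (n : K) : d (φ n) = d n := by
  have := Fintype.ofFinite G
  have := Fintype.ofFinite K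
  obtain ⟨f, hf⟩ := exists_injective_nat (G ⧸ φ.range)
  have q : ∀ x : G, ((φ n * x * (φ n)⁻¹ : G) : G ⧸ φ.range) = x := fun x => by
    simp [(QuotientGroup.eq_one_iff (N := φ.range) (φ n)).2 ⟨n, rfl⟩]
  have h1 : Iv (φ n) fun x => x ^ 3 = 1 ∧ f x < f (x : G ⧸ φ.range)⁻¹ := fun x => by
    simp only [q, conj_pow, conj_eq_one_iff]
  have h2 : Iv (φ n) fun x => x ^ 3 = 1 ∧ f (x : G ⧸ φ.range)⁻¹ < f x := fun x => by
    simp only [q, conj_pow, conj_eq_one_iff]
  have e1 : res (φ n) _ h2 = Equiv.inv G * res (φ n) _ h1 * (Equiv.inv G)⁻¹ := by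
    ext x
    simp only [Perm.mul_apply, res_ap, Perm.inv_def, inv_symm, inv_apply, inv_pow, inv_eq_one,
      QuotientGroup.mk_inv, inv_inv]
    split_ifs <;> simp [mul_assoc]
  have e2 : res (φ n) _ (inv3 _) = res (φ n) _ h1 * res (φ n) _ h2 *
      (res n _ (inv3 n)).extendDomain (ofInjective φ hφ) := by
    ext x
    by_cases h : x ∈ Set.range φ
    · obtain ⟨y, rfl⟩ := h
      have : ∀ y, (φ y : G ⧸ φ.range) = 1 := fun y => (QuotientGroup.eq_one_iff _).2 ⟨y, rfl⟩
      rw [Perm.mul_apply, show φ y = ofInjective φ hφ y from rfl, Perm.extendDomain_apply_image]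
      simp only [ofInjective_apply, Perm.mul_apply, res_ap, this, inv_one, lt_self_iff_false,
        and_false, if_false, ← map_pow, map_eq_one_iff φ hφ]
      split_ifs <;> simp
    · rw [Perm.mul_apply, Perm.extendDomain_apply_not_subtype _ _ h, Perm.mul_apply]
      by_cases h3 : x ^ 3 = 1
      · have : f x ≠ f (x : G ⧸ φ.range)⁻¹ := fun e => h ((QuotientGroup.eq_one_iff x).1 (by
          have e' := congrArg (fun y : G => (y : G ⧸ φ.range)) h3
          simp only [QuotientGroup.mk_pow, QuotientGroup.mk_one] at e'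
          rwa [pow_three', eq_inv_iff_mul_eq_one.1 (hf e), one_mul] at e'))
        rcases lt_or_gt_of_ne this with l | l
        · simp only [res_ap, h3, l, l.not_gt, and_false, and_true, if_true, if_false]
        · simp only [res_ap, h3, l, l.not_gt, and_false, and_true, if_true, if_false, q]
      · simp only [res_ap, h3, false_and, if_false]
  rw [d_def, d_def, e2, e1]
  simp only [map_mul, Perm.sign_extendDomain, Perm.sign_inv]
  rw [mul_right_comm (Perm.sign _) (Perm.sign (res _ _ h1)), Int.units_mul_self, one_mul,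
    Int.units_mul_self, one_mul]

/-- 3-groups extended by 2-groups -/
def F (G : Type) [Group G] : Prop :=
  ∃ P : Subgroup G, P.Normal ∧ IsPGroup 3 P ∧ ∀ g, ∃ k, g ^ 2 ^ k ∈ P

theorem F.inj (h : F G) (φ : K →* G) (hφ : Function.Injective φ) : F K := by
  obtain ⟨P, h1, h2, h3⟩ := h
  exact ⟨P.comap φ, h1.comap φ, h2.comap_of_injective φ hφ, fun g => by simpa using h3 (φ g)⟩

theorem two {P : Subgroup G} [P.Normal] : IsPGroup 2 (G ⧸ P) ↔ ∀ g, ∃ k, g ^ 2 ^ k ∈ P :=
  ⟨fun h g => (h g).imp fun _ e => (QuotientGroup.eq_one_iff _).1 e, fun h g => by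
    obtain ⟨g, rfl⟩ := QuotientGroup.mk_surjective g
    exact (h g).imp fun _ e => (QuotientGroup.eq_one_iff _).2 e⟩

theorem F.nor {N : Subgroup G} (hN : N.Normal) (h : F N) :
    ∃ P : Subgroup G, P.Normal ∧ IsPGroup 3 P ∧ ∀ g ∈ N, ∃ k, g ^ 2 ^ k ∈ P := by
  obtain ⟨P, h1, h2, h3⟩ := h
  refine ⟨P.map N.subtype, ⟨?_⟩, h2.map _, fun g hg =>
    (h3 ⟨g, hg⟩).imp fun k e => ⟨_, e, rfl⟩⟩
  rintro _ ⟨x, hx, rfl⟩ g
  obtain ⟨k, hk⟩ := h3 ⟨_, hN.conj_mem _ x.2 g⟩
  refine ⟨_, zpowers_le.2 hk (mem_zpowers_pow_iff.2 ?_), rfl⟩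
  rw [orderOf_mk, show g * x * g⁻¹ = (MulAut.conj g).toMonoidHom x from rfl,
    orderOf_injective _ (MulEquiv.injective _), orderOf_coe, ← orderOf_mk x hx]
  exact (h2.orderOf_coprime (Nat.Coprime.pow_right k (by norm_num)) _).symm

theorem fit_F : Fit F := by
  refine ⟨fun G K _ _ ⟨e⟩ h => h.inj e.symm.toMonoidHom e.symm.injective,
    fun G _ _ N _ h => h.inj _ N.subtype_injective, fun G _ _ N K hN hK h1 h2 => ?_⟩
  obtain ⟨P, p1, p2, p3⟩ := h1.nor hN
  obtain ⟨Q, q1, q2, q3⟩ := h2.nor hK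
  have a : ∀ {N P' : Subgroup G}, P' ≤ P ⊔ Q → (∀ g ∈ N, ∃ k, g ^ 2 ^ k ∈ P') →
      IsPGroup 2 (N.map (QuotientGroup.mk' (P ⊔ Q))) := by
    rintro N P' h h' ⟨_, g, hg, rfl⟩
    exact (h' g hg).imp fun k e => Subtype.ext ((QuotientGroup.eq_one_iff _).2 (h e))
  have := hK.map _ (QuotientGroup.mk'_surjective (P ⊔ Q))
  have b := (a le_sup_left p3).to_sup_of_normal_right (a le_sup_right q3)
  rw [← Subgroup.map_sup] at b
  exact ⟨(P ⊔ Q).subgroupOf _, inferInstance, (p2.to_sup_of_normal_right q2).comap_subtype,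
    fun g => (b ⟨_, mem_map_of_mem _ g.2⟩).imp fun k e =>
      (QuotientGroup.eq_one_iff (N := P ⊔ Q) (g.1 ^ 2 ^ k)).1 (congrArg Subtype.val e)⟩

/-- the non-local class -/
def H (G : Type) [Group G] : Prop := F G ∧ ∀ (_ : Finite G) (g : G), d g = 1

theorem fit_H : Fit H := by
  refine ⟨fun G K _ _ ⟨e⟩ h => ⟨fit_F.1 _ _ ⟨e⟩ h.1, fun _ g => ?_⟩,
    fun G _ _ N hN h => ⟨fit_F.2.1 _ _ hN h.1, fun _ g => ?_⟩,
    fun G _ _ N K hN hK h1 h2 => ⟨fit_F.2.2 _ _ _ hN hK h1.1 h2.1, fun _ g => ?_⟩⟩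
  · have := Finite.of_equiv _ e.symm.toEquiv
    have : e.symm.toMonoidHom.range.Normal := by
      rw [MonoidHom.range_eq_top.2 e.symm.surjective]
      infer_instance
    rw [← d_res e.symm.toMonoidHom e.symm.injective, h.2]
  · have : N.subtype.range.Normal := by simpa
    rw [← d_res _ N.subtype_injective, h.2]
  · have : N.subtype.range.Normal := by simpa
    have : K.subtype.range.Normal := by simpa
    have : (N ⊔ K).subtype.range.Normal := by rw [range_subtype]; infer_instance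
    obtain ⟨n, hn, m, hm, e⟩ := mem_sup_of_normal_left.1 g.2
    rw [← d_res _ (subtype_injective _), subtype_apply, ← e, map_mul]
    rw [show n = N.subtype ⟨n, hn⟩ from rfl, show m = K.subtype ⟨m, hm⟩ from rfl,
      d_res _ N.subtype_injective, d_res _ K.subtype_injective, h1.2, h2.2, one_mul]

theorem fit_p (p : ℕ) : Fit fun G _ => IsPGroup p G :=
  ⟨fun _ _ _ _ ⟨e⟩ h => h.of_equiv e, fun _ _ _ N _ h => h.to_subgroup N,
    fun _ _ _ _ _ _ _ h k => h.to_sup_of_normal_right k⟩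

theorem F.lift {N : Subgroup G} [N.Normal] (hN : IsPGroup 3 N) (h : F (G ⧸ N)) : F G := by
  obtain ⟨P, h1, h2, h3⟩ := h
  exact ⟨P.comap (QuotientGroup.mk' N), h1.comap _,
    h2.comap_of_ker_isPGroup _ (by rwa [QuotientGroup.ker_mk']), fun g => h3 g⟩

theorem H_two (h : IsPGroup 2 G) : H G := by
  refine ⟨⟨⊥, inferInstance, .of_bot, h⟩, fun _ g => ?_⟩
  have := Fintype.ofFinite G
  rw [d_def, ← map_one (Perm.sign (α := G))]
  congr 1
  ext x
  rw [res_ap]
  split_ifs with e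
  · rw [orderOf_eq_one_iff.1 ((h.orderOf_coprime (by norm_num) x).eq_one_of_dvd
      (orderOf_dvd_of_pow_eq_one e))]
    simp
  · rfl

end Pool.Agent.H.MP_6b3431_al
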