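import Pool.Agent.H.MP_6b3431_al.A

set_option maxHeartbeats 400000

namespace Pool.Agent.H.MP_6b3431_al

open Subgroup Equiv Pool.Agent.Lib.Fitting

/-- products -/
def Prd (C D : (G : Type) → [Group G] → Prop) (G : Type) [Group G] : Prop :=
  ∀ (N : Subgroup G) [N.Normal],
    (C ↥N ∧ ∀ K : Subgroup G, K.Normal → C ↥K → K ≤ N) → D (G ⧸ N)

/-- local classes -/
def Loc (C : (G : Type) → [Group G] → Prop) : Prop :=
  ∃ f : ℕ → ((G : Type) → [Group G] → Prop), (∀ p, Fit (f p)) ∧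
    ∀ (G : Type) [Group G] [Finite G], C G ↔
      ((∀ p : ℕ, p.Prime → p ∣ Nat.card G →
          ∃ (K : Type) (_ : Group K) (_ : Finite K), f p K) ∧
       ∀ p : ℕ, p.Prime → (∃ (K : Type) (_ : Group K) (_ : Finite K), f p K) →
         Prd (f p)
           (fun (Q : Type) [Group Q] =>
             ∃ P : Subgroup Q, P.Normal ∧ IsPGroup p ↥P ∧ Nat.Coprime P.index p) G)

variable {G : Type} [Group G] [Finite G]

instance : Fact (Nat.Prime 3) := ⟨by norm_num⟩

theorem F.prime (h : F G) {p : ℕ} (hp : p.Prime) (hd : p ∣ Nat.card G) : p = 2 ∨ p = 3 := by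
  obtain ⟨P, h1, h2, h3⟩ := h
  obtain ⟨a, ha⟩ := h2.exists_card_eq
  obtain ⟨b, hb⟩ := (two.2 h3).exists_card_eq
  rw [card_eq_card_quotient_mul_card_subgroup P, ha, hb, hp.dvd_mul] at hd
  exact hd.imp (fun h => (Nat.prime_dvd_prime_iff_eq hp Nat.prime_two).1 (hp.dvd_of_dvd_pow h))
    fun h => (Nat.prime_dvd_prime_iff_eq hp Nat.prime_three).1 (hp.dvd_of_dvd_pow h)

omit [Finite G] in
theorem F.quot (h : F G) (N : Subgroup G) [N.Normal] : F (G ⧸ N) := by
  obtain ⟨P, h1, h2, h3⟩ := h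
  refine ⟨P.map (QuotientGroup.mk' N), h1.map _ (QuotientGroup.mk'_surjective N), h2.map _,
    fun g => ?_⟩
  obtain ⟨g, rfl⟩ := QuotientGroup.mk_surjective g
  exact (h3 g).imp fun k e => ⟨_, e, rfl⟩

theorem F.hall (h : F G) {p : ℕ} (hp : p.Prime) (h2 : p ≠ 2) :
    ∃ P : Subgroup G, P.Normal ∧ IsPGroup p ↥P ∧ Nat.Coprime P.index p := by
  by_cases h3 : p = 3
  · obtain ⟨P, h4, h5, h6⟩ := h
    obtain ⟨b, hb⟩ := (two.2 h6).exists_card_eq
    exact ⟨P, h4, h3 ▸ h5, by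
      rw [index, hb, h3]; exact Nat.Coprime.pow_left _ (by norm_num)⟩
  · exact ⟨⊥, inferInstance, .of_bot, by
      rw [index_bot, Nat.coprime_comm, hp.coprime_iff_not_dvd]
      exact fun e => (h.prime hp e).elim h2 h3⟩

omit [Finite G] in
theorem F.top (h : F G) {N : Subgroup G} [N.Normal]
    (hN : ∀ K : Subgroup G, K.Normal → IsPGroup 3 K → K ≤ N) : IsPGroup 2 (G ⧸ N) := by
  obtain ⟨P, h1, h2, h3⟩ := h
  exact two.2 fun g => (h3 g).imp fun _ e => hN P h1 h2 e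

theorem ne3 : ∃ (K : Type) (_ : Group K) (_ : Finite K), IsPGroup 3 K :=
  ⟨Unit, inferInstance, inferInstance, .of_subsingleton _ _⟩

theorem loc_F : Loc F := by
  refine ⟨fun p G _ => (p = 2 ∨ p = 3) ∧ IsPGroup 3 G, fun p => ⟨fun _ _ _ _ e h =>
    ⟨h.1, (fit_p 3).1 _ _ e h.2⟩, fun _ _ _ N _ h => ⟨h.1, h.2.to_subgroup N⟩,
    fun _ _ _ _ _ _ _ h k => ⟨h.1, h.2.to_sup_of_normal_right k.2⟩⟩, fun G _ _ => ⟨fun h =>
    ⟨fun p hp hd => ⟨Unit, inferInstance, inferInstance, h.prime hp hd, .of_subsingleton _ _⟩,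
      fun p hp _ N _ hN => ?_⟩, fun ⟨h1, h2⟩ => ?_⟩⟩
  · by_cases e : p = 2
    · exact ⟨⊤, inferInstance, e ▸ (h.top fun K a b => hN.2 K a ⟨.inl e, b⟩).to_subgroup _,
        by simp⟩
    · exact (h.quot N).hall hp e
  · obtain ⟨N, n1, n2, n3⟩ := (fit_p 3).rad (G := G) ne3
    obtain ⟨P, p1, p2, p3⟩ := h2 3 Nat.prime_three
      ⟨Unit, inferInstance, inferInstance, .inr rfl, .of_subsingleton _ _⟩ N
      ⟨⟨.inr rfl, n2⟩, fun K a b => n3 K a b.2⟩
    refine F.lift n2 ⟨P, p1, p2, two.1 (IsPGroup.of_card (Nat.eq_prime_pow_of_unique_prime_dvd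
      Nat.card_pos.ne' fun {p} hp hd => ?_))⟩
    obtain ⟨_, _, _, h, -⟩ := h1 p hp
      ((hd.trans (card_quotient_dvd_card P)).trans (card_quotient_dvd_card N))
    exact h.resolve_right fun e => Nat.prime_three.one_lt.ne'
      (p3.symm.eq_one_of_dvd (e ▸ hd))

theorem prd : F G ↔ Prd (fun G _ => IsPGroup 3 G) H G := by
  refine ⟨fun h N _ hN => H_two (h.top hN.2), fun h => ?_⟩
  obtain ⟨N, n1, n2, n3⟩ := (fit_p 3).rad (G := G) ne3
  exact F.lift n2 (h N ⟨n2, n3⟩).1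

theorem F.solv (h : F G) : IsSolvable G := by
  obtain ⟨P, h1, h2, h3⟩ := h
  have := h2.isNilpotent
  have := (two.2 h3).isNilpotent
  exact solvable_of_ker_le_range P.subtype (QuotientGroup.mk' P) (by simp)

/-- the symmetric group -/
abbrev S := Perm (Fin 3)

theorem inl_inj : Function.Injective (MonoidHom.inl S S) := fun _ _ e => congrArg Prod.fst e

theorem F_S : F (S × S) :=
  ⟨(Perm.sign.comp (MonoidHom.fst S S)).ker ⊓ (Perm.sign.comp (MonoidHom.snd S S)).ker,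
    inferInstance, fun ⟨g, h⟩ => ⟨1, Subtype.ext (by
      have : ∀ g : S × S, Perm.sign g.1 = 1 → Perm.sign g.2 = 1 → g ^ 3 = 1 := by decide +kernel
      exact this g h.1 h.2)⟩, fun g => ⟨1, by simp [sq]⟩⟩

theorem d_S : d (swap 0 1 : S) = -1 := by
  have : res (swap 0 1 : S) _ (inv3 _) = swap (finRotate 3) (finRotate 3)⁻¹ := by
    refine Perm.ext fun x => ?_
    rw [res_ap, swap_apply_def]
    split_ifs <;> revert x <;> decide +kernel
  rw [d_def, this]
  convert Perm.sign_swap (x := finRotate 3) (y := (finRotate 3)⁻¹) (by decide)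

/-- the generating group -/
noncomputable abbrev E : Subgroup (S × S) := d.ker

theorem H_E : H E := ⟨F_S.inj _ (subtype_injective _), fun _ g => by
  have : E.subtype.range.Normal := by rw [range_subtype]; infer_instance
  rw [← d_res _ (subtype_injective E)]
  exact g.2⟩

theorem s_mem : (swap 0 1, swap 0 1) ∈ E := by
  have : (MonoidHom.inl S S).range.Normal := ⟨by
    rintro _ ⟨a, rfl⟩ g
    exact ⟨g.1 * a * g.1⁻¹, by ext1 <;> simp⟩⟩
  have : (MonoidHom.inr S S).range.Normal := ⟨by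
    rintro _ ⟨a, rfl⟩ g
    exact ⟨g.2 * a * g.2⁻¹, by ext1 <;> simp⟩⟩
  rw [MonoidHom.mem_ker, show ((swap 0 1, swap 0 1) : S × S) =
    MonoidHom.inl S S (swap 0 1) * MonoidHom.inr S S (swap 0 1) by simp, map_mul, d_res _ inl_inj,
    d_res (MonoidHom.inr S S) fun _ _ e => congrArg Prod.snd e, Int.units_mul_self]

theorem u_mem : (finRotate 3, 1) ∈ E := by
  rw [MonoidHom.mem_ker, show ((finRotate 3, 1) : S × S) =
    ((finRotate 3)⁻¹, 1) * ((finRotate 3)⁻¹, 1) by decide, map_mul, Int.units_mul_self]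

/-- an involution -/
def s : E := ⟨_, s_mem⟩

/-- an element of order three -/
def u : E := ⟨_, u_mem⟩

theorem mini {C : (G : Type) → [Group G] → Prop} (hC : Loc C) (h : C E) (hG : F G) : C G := by
  obtain ⟨f, f1, f2⟩ := hC
  obtain ⟨h1, h2⟩ := (f2 E).1 h
  have hs : orderOf s = 2 := orderOf_eq_prime (Subtype.ext (by decide))
    fun e => absurd (congrArg Subtype.val e) (by decide)
  have hu : orderOf u = 3 := orderOf_eq_prime (Subtype.ext (by decide))
    fun e => absurd (congrArg Subtype.val e) (by decide)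
  have n2 := h1 2 Nat.prime_two (hs ▸ orderOf_dvd_natCard s)
  have n3 := h1 3 Nat.prime_three (hu.symm.dvd.trans (orderOf_dvd_natCard u))
  obtain ⟨N, a1, a2, a3⟩ := (f1 2).rad (G := E) n2
  obtain ⟨P, p1, p2, p3⟩ := h2 2 Nat.prime_two n2 N ⟨a2, a3⟩
  have b1 : (s : E ⧸ N) ∈ P := zpowers_le.2 (P.pow_index_mem s) (mem_zpowers_pow_iff.2
    (p3.coprime_dvd_right (hs ▸ orderOf_map_dvd (QuotientGroup.mk' N) s)))
  have b2 : (u : E ⧸ N) ∈ P := by
    have := mul_mem b1 (inv_mem (p1.conj_mem _ b1 u))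
    rwa [← QuotientGroup.mk_inv, ← QuotientGroup.mk_mul, ← QuotientGroup.mk_mul,
      ← QuotientGroup.mk_inv, ← QuotientGroup.mk_mul,
      show s * (u * s * u⁻¹)⁻¹ = u from Subtype.ext (by decide)] at this
  have b3 : u ∈ N := (QuotientGroup.eq_one_iff u).1 (orderOf_eq_one_iff.1 (by
    rw [← orderOf_mk _ b2]
    exact (p2.orderOf_coprime (n := 3) (by norm_num) _).eq_one_of_dvd (by
      rw [orderOf_mk]; exact (orderOf_map_dvd (QuotientGroup.mk' N) u).trans hu.dvd)))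
  have b4 : f 2 (zpowers u) := (f1 2).down (zpowers_le.2 b3) (Normal.subgroupOf ⟨by
    rintro _ ⟨k, rfl⟩ g
    have : ∀ g : S × S, g * u.1 * g⁻¹ = u.1 ∨ g * u.1 * g⁻¹ = u.1⁻¹ := by decide +kernel
    rw [← conj_zpow]
    refine zpow_mem ?_ k
    rcases this g with e | e
    · exact (Subtype.ext e : g * u * g⁻¹ = u).symm ▸ mem_zpowers u
    · exact (Subtype.ext e : g * u * g⁻¹ = u⁻¹).symm ▸ inv_mem (mem_zpowers u)⟩ _) a2
  refine (f2 G).2 ⟨fun p hp hd => ?_, fun p hp _ N _ hN => ?_⟩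
  · rcases hG.prime hp hd with rfl | rfl
    exacts [n2, n3]
  · by_cases e : p = 2
    · exact ⟨⊤, inferInstance, e ▸ (hG.top fun K a b => hN.2 K a
        (e ▸ (f1 2).pgroup hu b4 b)).to_subgroup _, by simp⟩
    · exact (hG.quot N).hall hp e

theorem F_S' : F S := F_S.inj _ inl_inj

theorem not_loc : ¬ Loc H := fun h =>
  absurd (d_S.symm.trans ((mini h H_E F_S').2 inferInstance _)) (by decide)

theorem not_M : ¬ (IsPGroup 3 S ↔ F S) := fun h => by
  have := (h.2 F_S').orderOf_coprime (n := 2) (by norm_num) (swap 0 1)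
  rw [orderOf_eq_prime (p := 2) (by decide) (by decide)] at this
  exact absurd this (by norm_num)

end Pool.Agent.H.MP_6b3431_al
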